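import Mathlib
import Pool.Agent.TH764.OG.Frame

/-!
# `α → (α, infinite path)²` for ordinals of cardinality `κ` of countable cofinality:
definitions and the statements of the parts
-/

set_option autoImplicit false

namespace Pool.Agent.NH91.CW

open Set Cardinal Ordinal Pool.Agent.TH764.OG

/-- well-founded trees whose leaves carry elements of `ι` -/
inductive Tr (ι : Type) : Type 1
  | leaf : ι → Tr ι
  | node : (A : Type) → (A → Tr ι) → Tr ι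

/-- `Z` is full: it contains the leaf; it is full at as many children as there are children -/
def Full {ι : Type} : Tr ι → Set ι → Prop
  | .leaf i, Z => i ∈ Z
  | .node A f, Z => #A ≤ #{a : A // Full (f a) Z}

/-- all numbers of children are regular cardinals less than `κ` -/
def OK {ι : Type} (κ : Cardinal.{0}) : Tr ι → Prop
  | .leaf _ => True
  | .node A f => (#A).IsRegular ∧ #A < κ ∧ ∀ a, OK κ (f a)

/-- the subtrees which can be reached through nodes with at most `c` children -/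
def Sub {ι : Type} (c : Cardinal.{0}) : Tr ι → Set (Tr ι)
  | .leaf i => {.leaf i}
  | .node A f => {.node A f} ∪ {s | #A ≤ c ∧ ∃ a, s ∈ Sub c (f a)}

/-- a sequence of regular uncountable cardinals increasing to `κ` -/
structure Seq (κ : Cardinal.{0}) (c : ℕ → Cardinal.{0}) : Prop where
  reg : ∀ n, (c n).IsRegular
  unc : ∀ n, ℵ₀ < c n
  mono : StrictMono c
  lt : ∀ n, c n < κ
  cof : ∀ ν < κ, ∃ n, ν ≤ c n

/-- CW-1 -/
def S_SEQ : Prop :=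
  ∀ κ : Cardinal.{0}, ℵ₀ < κ → κ.ord.cof = ℵ₀ → ∃ c : ℕ → Cardinal.{0}, Seq κ c

/-- CW-2: fusion -/
def S_FUS : Prop :=
  ∀ {ι : Type} (κ : Cardinal.{0}) (c : ℕ → Cardinal.{0}) (_ : Seq κ c) (t : Tr ι) (_ : OK κ t)
    (Z : ℕ → Set ι) (_ : Antitone Z) (W : Set ι)
    (_ : ∀ i, (∃ n, Tr.leaf i ∈ Sub (c n) t) → (∀ n, i ∈ Z n) → i ∈ W)
    (_ : ∀ n, ∀ s ∈ Sub (c n) t, Full s (Z n) → Full s (Z (n + 1))), Full t (Z 0) → Full t W

/-- CW-3: at most `c` subtrees -/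
def S_SUB : Prop :=
  ∀ {ι : Type} (c : Cardinal.{0}) (_ : ℵ₀ ≤ c) (t : Tr ι),
    ∃ (J : Type) (g : J → Tr ι), #J ≤ c ∧ Sub c t ⊆ Set.range g

/-- CW-4: sets which are not full form an ideal -/
def S_IDL : Prop :=
  ∀ {ι : Type} (κ : Cardinal.{0}) (t : Tr ι) (_ : OK κ t),
    (∀ Z Z' : Set ι, Z ⊆ Z' → Full t Z → Full t Z') ∧
    ∀ Z Z' : Set ι, Full t (Z ∪ Z') → Full t Z ∨ Full t Z'

/-- CW-5: a `Δ`-system of paths -/
def S_DEL : Prop :=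
  ∀ {X : Type} (pred : X → Set X) (_ : TreeOrd pred) (ν : Cardinal.{0}) (_ : ν.IsRegular)
    (_ : ℵ₀ < ν) (S : Set X) (_ : ν ≤ #S), ∃ S' R : Set X, S' ⊆ S ∧ ν ≤ #S' ∧ R.Finite ∧
      (∀ x ∈ S', R ⊆ pred x) ∧
      ∀ x ∈ S', ∀ y ∈ S', x ≠ y → (insert x (pred x) ∩ insert y (pred y) : Set X) ⊆ R

/-- CW-6: greedy choice -/
def S_GRE : Prop :=
  ∀ {X Q : Type} (ν : Cardinal.{0}) (_ : ℵ₀ ≤ ν) (_ : #Q ≤ ν) (Con : X → X → Prop)
    (_ : ∀ x y, Con x y → Con y x) (A : Q → Set X) (_ : ∀ q, ν ≤ #(A q))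
    (_ : ∀ q q', ∀ w ∈ A q', {x | x ∈ A q ∧ Con x w}.Finite),
    ∃ u : Q → X, (∀ q, u q ∈ A q) ∧ ∀ q q', q ≠ q' → ¬ Con (u q) (u q')

/-- CW-7: a large antichain which can be cut into `ν` large pieces -/
def S_ANT : Prop :=
  ∀ {X B : Type} (pred : X → Set X) (_ : TreeOrd pred) (ν μ : Cardinal.{0}) (_ : ν.IsRegular)
    (_ : ℵ₀ ≤ μ) (_ : μ < ν) (_ : #B ≤ μ) (Y : Set X) (_ : #Y ≤ μ) (_ : ∀ x ∈ Y, ∀ y ∈ Y, x ∉ pred y)
    (S R : B → Set X) (_ : ∀ b, ν ≤ #(S b)) (_ : ∀ b, (R b).Finite) (_ : ∀ b, Disjoint (R b) Y)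
    (_ : ∀ b, ∀ x ∈ S b, R b ⊆ pred x)
    (_ : ∀ b, ∀ x ∈ S b, ∀ y ∈ S b, x ≠ y → (insert x (pred x) ∩ insert y (pred y) : Set X) ⊆ R b),
    ∃ U : ν.ord.ToType → Set X, (∀ a, #(U a) ≤ ν) ∧ (∀ a b, ν ≤ #(U a ∩ S b : Set X)) ∧
      (∀ a a', a ≠ a' → Disjoint (U a) (U a')) ∧
      ∀ x ∈ Y ∪ ⋃ a, U a, ∀ y ∈ Y ∪ ⋃ a, U a, x ∉ pred y

/-- the data of the construction: for every `i` and `n` a set `S i n ⊆ T i` with at least `c n`
elements, whose paths form a `Δ`-system with kernel `R i n` -/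
structure Dat {X ι : Type} (pred : X → Set X) (c : ℕ → Cardinal.{0}) (T : ι → Set X)
    (S R : ι → ℕ → Set X) : Prop where
  sub : ∀ i n, S i n ⊆ T i
  card : ∀ i n, c n ≤ #(S i n)
  fin : ∀ i n, (R i n).Finite
  ker : ∀ i n, ∀ x ∈ S i n, R i n ⊆ pred x
  del : ∀ i n, ∀ x ∈ S i n, ∀ y ∈ S i n, x ≠ y →
    (insert x (pred x) ∩ insert y (pred y) : Set X) ⊆ R i n

/-- an admissible state: `Y` is an antichain with at most `ν` elements which misses infinitely many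
of the kernels of every `i ∈ Z` -/
structure Adm {X ι : Type} (pred : X → Set X) (R : ι → ℕ → Set X) (ν : Cardinal.{0})
    (Y : Set X) (Z : Set ι) : Prop where
  anti : ∀ x ∈ Y, ∀ y ∈ Y, x ∉ pred y
  card : #Y ≤ ν
  inf : ∀ i ∈ Z, {m | Disjoint (R i m) Y}.Infinite

/-- CW-8: the next state -/
def S_STEP : Prop :=
  ∀ {X ι : Type} (pred : X → Set X) (_ : TreeOrd pred) (κ : Cardinal.{0}) (c : ℕ → Cardinal.{0})
    (_ : Seq κ c) (T : ι → Set X) (S R : ι → ℕ → Set X) (_ : Dat pred c T S R) (t : Tr ι)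
    (_ : OK κ t) (n : ℕ) (Y : Set X) (Z : Set ι) (_ : Adm pred R (c n) Y Z),
    ∃ (Y' : Set X) (Z' : Set ι), Adm pred R (c (n + 1)) Y' Z' ∧ Y ⊆ Y' ∧ Z' ⊆ Z ∧
      (∀ s ∈ Sub (c n) t, Full s Z → Full s Z') ∧
      ∀ i ∈ Z, Tr.leaf i ∈ Sub (c n) t → c (n + 1) ≤ #(Y' ∩ T i : Set X)

/-- CW-9: the construction -/
def S_CON : Prop :=
  ∀ {X ι : Type} (pred : X → Set X) (_ : TreeOrd pred) (κ : Cardinal.{0}) (_ : ℵ₀ < κ)
    (_ : κ.ord.cof = ℵ₀) (T : ι → Set X) (_ : ∀ i, κ ≤ #(T i)) (t : Tr ι) (_ : OK κ t)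
    (_ : Full t Set.univ),
    ∃ (Y : Set X) (W : Set ι), (∀ x ∈ Y, ∀ y ∈ Y, x ∉ pred y) ∧ Full t W ∧
      ∀ i ∈ W, κ ≤ #(Y ∩ T i : Set X)

/-- CW-10: the tree of an ordinal -/
def S_TRE : Prop :=
  ∀ {X : Type} [LinearOrder X] [WellFoundedLT X] (κ : Cardinal.{0}) (_ : ℵ₀ < κ)
    (_ : κ.ord.cof = ℵ₀) (δ : Ordinal.{0}) (_ : (ω ^ δ : Ordinal.{0}).card ≤ κ)
    (ψ : Ordinal.{0} → X) (_ : StrictMonoOn ψ (Set.Iio (ω ^ δ))),
    ∃ t : Tr X, OK κ t ∧ Full t Set.univ ∧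
      ∀ Z : Set X, Full t Z → ω ^ δ ≤ typeLT (Z ∩ ψ '' Set.Iio (ω ^ δ) : Set X)

end Pool.Agent.NH91.CW
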