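import Mathlib
import Pool.Agent.NH91.CW.Stm
import Pool.Agent.TH764.OG.Fam2

/-!
# The relation for `ω ^ γ` of cardinality `κ` of countable cofinality
-/

set_option autoImplicit false

namespace Pool.Agent.NH91.CW

open Set Cardinal Ordinal Pool.Agent.TH764.OG

theorem rel_cof (hCON : S_CON) (hTRE : S_TRE) {γ : Ordinal.{0}} (hunc : ℵ₀ < (ω ^ γ : Ordinal.{0}).card)
    (hcof : (ω ^ γ : Ordinal.{0}).card.ord.cof = ℵ₀) : Rel (ω ^ γ) := by
  classical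
  set κ : Cardinal.{0} := (ω ^ γ : Ordinal.{0}).card with hκdef
  have hκ : ℵ₀ ≤ κ := hunc.le
  have hle : κ.ord ≤ ω ^ γ := Cardinal.ord_card_le _
  obtain ⟨η, hη⟩ := ord_eq_opow hκ
  have hηγ : η ≤ γ := by
    rw [hη] at hle
    exact (Ordinal.opow_le_opow_iff_right Ordinal.one_lt_omega0).1 hle
  set δ : Ordinal.{0} := γ - η with hδ
  have hdec : (ω ^ γ : Ordinal.{0}) = κ.ord * ω ^ δ := by
    rw [hη, ← Ordinal.opow_add, hδ, Ordinal.add_sub_cancel_of_le hηγ]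
  intro G
  by_cases hpath : ∃ f : ℕ → (ω ^ γ : Ordinal.{0}).ToType, Function.Injective f ∧ ∀ n, G.Adj (f n) (f (n + 1))
  · exact Or.inr hpath
  left
  have h0 : (ω ^ γ : Ordinal.{0}) ≠ 0 := (Ordinal.opow_pos γ Ordinal.omega0_pos).ne'
  obtain ⟨φ, hφ⟩ := exists_enum' h0
  have : Nonempty (ω ^ γ : Ordinal.{0}).ToType := ⟨φ 0⟩
  obtain ⟨pred, hT, hG⟩ := exists_treeOrd G (by
    intro v hv hadj
    exact hpath ⟨v, hv, hadj⟩)
  have hδ0 : (ω ^ δ : Ordinal.{0}) ≠ 0 := (Ordinal.opow_pos δ Ordinal.omega0_pos).ne'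
  obtain ⟨ψ, hψ⟩ := exists_enum' hδ0
  have hδcard : (ω ^ δ : Ordinal.{0}).card ≤ κ := by
    rw [hκdef]
    refine Ordinal.card_le_card ?_
    exact Ordinal.opow_le_opow_right Ordinal.omega0_pos (Ordinal.sub_le_self γ η)
  obtain ⟨t, ht1, ht2, ht3⟩ := hTRE κ hunc hcof δ hδcard ψ hψ
  have hφ' : StrictMonoOn φ (Set.Iio (κ.ord * ω ^ δ)) := by
    intro a ha b hb hab
    exact hφ (lt_of_lt_of_eq ha hdec.symm) (lt_of_lt_of_eq hb hdec.symm) hab
  let T : (ω ^ δ : Ordinal.{0}).ToType → Set (ω ^ γ : Ordinal.{0}).ToType := fun ζ =>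
    (fun ξ => φ (κ.ord * (ToType.toOrd ζ : Ordinal.{0}) + ξ)) '' Set.Iio κ.ord
  have hTcard : ∀ ζ, κ ≤ #(T ζ) := by
    intro ζ
    have h1 : StrictMonoOn (fun ξ => φ (κ.ord * (ToType.toOrd ζ : Ordinal.{0}) + ξ))
        (Set.Iio κ.ord) := by
      intro a ha b hb hab
      exact hφ' (mul_add_lt_mul (ToType.toOrd ζ).2 ha) (mul_add_lt_mul (ToType.toOrd ζ).2 hb)
        ((add_lt_add_iff_left _).2 hab)
    have h2 : κ.ord ≤ typeLT (T ζ) :=
      le_type_image h1 (fun ξ hξ => Set.mem_image_of_mem _ hξ)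
    exact Cardinal.ord_le.1 h2
  obtain ⟨Y, W, hY1, hW, hY2⟩ := hCON pred hT κ hunc hcof T hTcard t ht1 ht2
  have hWtype : (ω ^ δ : Ordinal.{0}) ≤ typeLT W :=
    (ht3 W hW).trans (TH764.OG.type_mono Set.inter_subset_left)
  refine ⟨Y, ?_, le_antisymm (type_le_self _) ?_⟩
  · intro x hx y hy _ hxy
    rcases hG x y hxy with h | h
    · exact hY1 x hx y hy h
    · exact hY1 y hy x hx h
  · have h1 := type_blocks φ hφ' Y W (by
      intro ζ hζ
      have h2 := hY2 ζ hζ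
      rw [Cardinal.ord_le]
      rw [Set.inter_comm] at h2
      exact h2)
    calc (ω ^ γ : Ordinal.{0}) = κ.ord * ω ^ δ := hdec
      _ ≤ κ.ord * typeLT W := by gcongr
      _ ≤ _ := h1
      _ ≤ typeLT Y := TH764.OG.type_mono Set.inter_subset_right

end Pool.Agent.NH91.CW
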