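import Mathlib
import Pool.Agent.NH91.CW.Fin

/-!
# Reduction of the relation to the terms whose cardinality has uncountable cofinality
-/

set_option autoImplicit false

namespace Pool.Agent.NH91.CW

open Set Cardinal Ordinal Pool.Agent.TH764.OG

theorem rel_all (hCON : S_CON) (hTRE : S_TRE) {α : Ordinal.{0}} (hα : Order.IsSuccLimit α) :
    Rel α ↔ ∀ γ ∈ (CNF ω α).map Prod.fst, ∀ κ : Cardinal.{0}, (ω ^ γ : Ordinal.{0}).card = κ →
      ℵ₀ < κ.ord.cof →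
      (∀ μ : Cardinal.{0}, ℵ₀ ≤ μ → μ < κ → κ.ord ^ (μ.ord + 2) ≤ ω ^ γ) → Rel (ω ^ γ) := by
  rw [rel_iff_terms hα]
  refine forall₂_congr fun γ hγ => ⟨fun h _ _ _ _ => h, fun h => ?_⟩
  rcases le_or_gt (ω ^ γ : Ordinal.{0}).card ℵ₀ with h1 | h1
  · exact rel_opow_countable (one_le_of_mem hα hγ) h1
  · have h2 : ℵ₀ ≤ (ω ^ γ : Ordinal.{0}).card.ord.cof := by
      rw [Ordinal.aleph0_le_cof]
      exact Cardinal.isSuccLimit_ord h1.le
    rcases h2.eq_or_lt with h3 | h3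
    · exact rel_cof hCON hTRE h1 h3.symm
    · by_cases h4 : ∀ μ : Cardinal.{0}, ℵ₀ ≤ μ → μ < (ω ^ γ : Ordinal.{0}).card →
          (ω ^ γ : Ordinal.{0}).card.ord ^ (μ.ord + 2) ≤ ω ^ γ
      · exact h _ rfl h3 h4
      · push Not at h4
        obtain ⟨μ, h5, h6, h7⟩ := h4
        exact rel_opow h5 h6 h7

end Pool.Agent.NH91.CW
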