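import Pool.Agent.NH91.CW.Stm

/-! Project CW (helper91), part ANT: a large antichain in `ν` pieces. -/

set_option autoImplicit false

namespace Pool.Agent.NH91.CW

open Set Cardinal Ordinal Pool.Agent.TH764.OG

namespace ANT

theorem small_iUnion {ι X : Type} {μ : Cardinal.{0}} (hμ : ℵ₀ ≤ μ) (hι : #ι ≤ μ) (f : ι → Set X)
    (hf : ∀ i, #(f i) ≤ μ) : #(⋃ i, f i : Set X) ≤ μ :=
  ((mk_iUnion_le f).trans (mul_le_mul' hι (ciSup_le' hf))).trans (mul_eq_self hμ).le

/-- comparable elements -/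
def Con {X : Type} (pred : X → Set X) (x y : X) : Prop := x = y ∨ x ∈ pred y ∨ y ∈ pred x

theorem con_symm {X : Type} (pred : X → Set X) (x y : X) (h : Con pred x y) : Con pred y x := by
  rcases h with h | h | h
  · exact Or.inl h.symm
  · exact Or.inr (Or.inr h)
  · exact Or.inr (Or.inl h)

theorem fin_con {X : Type} (pred : X → Set X) (hT : TreeOrd pred) (S R : Set X)
    (del : ∀ x ∈ S, ∀ y ∈ S, x ≠ y → (insert x (pred x) ∩ insert y (pred y) : Set X) ⊆ R)
    (w : X) (hw : w ∉ R) : {x | x ∈ S ∧ Con pred x w}.Finite := by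
  have h1 : {x | x ∈ S ∧ w ∈ pred x}.Finite := by
    apply Set.Subsingleton.finite
    rintro x ⟨hx, hx'⟩ y ⟨hy, hy'⟩
    by_contra hne
    exact hw (del x hx y hy hne ⟨Set.mem_insert_of_mem _ hx', Set.mem_insert_of_mem _ hy'⟩)
  refine ((((Set.finite_singleton w).union (hT.fin w))).union h1).subset ?_
  rintro x ⟨hx, h | h | h⟩
  · exact Or.inl (Or.inl h)
  · exact Or.inl (Or.inr h)
  · exact Or.inr ⟨hx, h⟩

end ANT

open ANT in
theorem t_ANT (hGRE : @S_GRE) : S_ANT := by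
  classical
  intro X B pred hT ν μ hν hμ hμν hB Y hY hYa S R hS hRf hRY hker hdel
  have hν0 : ℵ₀ ≤ ν := hμ.trans hμν.le
  obtain ⟨RR, hRR⟩ : ∃ RR : Set X, RR = ⋃ b, R b := ⟨_, rfl⟩
  have hRRc : #RR ≤ μ := by
    rw [hRR]
    exact small_iUnion hμ hB R fun b => ((hRf b).lt_aleph0.le).trans hμ
  obtain ⟨E, hE⟩ : ∃ E : B → Set X, ∀ b, E b = RR ∪ ⋃ y : Y, {x | x ∈ S b ∧ Con pred x y} :=
    ⟨_, fun _ => rfl⟩
  have hEc : ∀ b, #(E b) ≤ μ := by
    intro b
    rw [hE]
    refine (mk_union_le _ _).trans ?_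
    refine (add_le_add hRRc (small_iUnion hμ hY _ fun y => ?_)).trans (add_eq_self hμ).le
    have h1 : (y : X) ∉ R b := fun h => (Set.disjoint_left.1 (hRY b)) h y.2
    exact ((fin_con pred hT (S b) (R b) (hdel b) y h1).lt_aleph0.le).trans hμ
  have hSE : ∀ b, ν ≤ #(S b \ E b : Set X) := by
    intro b
    by_contra hcon
    rw [not_le] at hcon
    have h1 := le_mk_sdiff_add_mk (S b) (E b)
    have h2 : #(S b \ E b : Set X) + #(E b) < ν := add_lt_of_lt hν0 hcon ((hEc b).trans_lt hμν)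
    exact absurd ((hS b).trans h1) (not_le.2 h2)
  have hTc : #(ν.ord.ToType) = ν := by
    rw [mk_ord_toType]
  have hBT : #(B × ν.ord.ToType) ≤ ν := by
    rw [mk_prod, Cardinal.lift_id, Cardinal.lift_id, hTc]
    exact (mul_le_mul' (hB.trans hμν.le) le_rfl).trans (mul_eq_self hν0).le
  have hQ : #(B × ν.ord.ToType × ν.ord.ToType) ≤ ν := by
    rw [mk_prod, Cardinal.lift_id, Cardinal.lift_id, mk_prod, Cardinal.lift_id, hTc, mul_eq_self hν0]
    exact (mul_le_mul' (hB.trans hμν.le) le_rfl).trans (mul_eq_self hν0).le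
  obtain ⟨u, hu, huc⟩ := hGRE (Q := B × ν.ord.ToType × ν.ord.ToType) ν hν0 hQ (Con pred)
    (con_symm pred) (fun q => S q.1 \ E q.1) (fun q => hSE q.1) (by
      intro q q' w hw
      have h1 : w ∉ R q.1 := by
        intro h
        apply hw.2
        rw [hE, hRR]
        exact Or.inl (Set.mem_iUnion.2 ⟨q.1, h⟩)
      refine (fin_con pred hT (S q.1) (R q.1) (hdel q.1) w h1).subset ?_
      rintro x ⟨hx, hx'⟩
      exact ⟨hx.1, hx'⟩)
  have hnc : ∀ q, ∀ y ∈ Y, ¬ Con pred (u q) y := by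
    intro q y hy h
    apply (hu q).2
    rw [hE]
    exact Or.inr (Set.mem_iUnion.2 ⟨⟨y, hy⟩, (hu q).1, h⟩)
  refine ⟨fun a => Set.range fun p : B × ν.ord.ToType => u (p.1, p.2, a), ?_, ?_, ?_, ?_⟩
  · intro a
    exact mk_range_le.trans hBT
  · intro a b
    conv_lhs => rw [← hTc]
    refine mk_le_of_injective (f := fun z : ν.ord.ToType =>
      (⟨u (b, z, a), ⟨⟨(b, z), rfl⟩, (hu (b, z, a)).1⟩⟩ :
        ((Set.range fun p : B × ν.ord.ToType => u (p.1, p.2, a)) ∩ S b : Set X))) ?_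
    intro z z' h
    by_contra hne
    have h1 : u (b, z, a) = u (b, z', a) := congrArg Subtype.val h
    exact huc (b, z, a) (b, z', a) (fun h2 => hne (congrArg (fun q => q.2.1) h2)) (Or.inl h1)
  · intro a a' hne
    rw [Set.disjoint_left]
    rintro x ⟨p, rfl⟩ ⟨p', hp'⟩
    exact huc (p'.1, p'.2, a') (p.1, p.2, a) (fun h2 => hne (congrArg (fun q => q.2.2) h2).symm)
      (Or.inl hp')
  · rintro x (hx | hx) y (hy | hy)
    · exact hYa x hx y hy
    · obtain ⟨a, p, rfl⟩ := Set.mem_iUnion.1 hy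
      exact fun h => hnc _ x hx (Or.inr (Or.inr h))
    · obtain ⟨a, p, rfl⟩ := Set.mem_iUnion.1 hx
      exact fun h => hnc _ y hy (Or.inr (Or.inl h))
    · obtain ⟨a, p, rfl⟩ := Set.mem_iUnion.1 hx
      obtain ⟨a', p', rfl⟩ := Set.mem_iUnion.1 hy
      intro h
      by_cases hq : (p.1, p.2, a) = (p'.1, p'.2, a')
      · simp only at h
        rw [hq] at h
        exact hT.irr _ h
      · exact huc _ _ hq (Or.inr (Or.inl h))

end Pool.Agent.NH91.CW
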