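import Pool.Agent.NH91.CW.Stm

/-!
# CW-9: the construction
-/

set_option autoImplicit false

namespace Pool.Agent.NH91.CW

open Set Cardinal Ordinal Pool.Agent.TH764.OG

theorem sub_mono_con {ι : Type} {c c' : Cardinal.{0}} (h : c ≤ c') (t : Tr ι) :
    Sub c t ⊆ Sub c' t := by
  induction t with
  | leaf i => exact subset_rfl
  | node A f ih =>
    unfold Sub
    rintro s (hs | ⟨h1, a, ha⟩)
    · exact Or.inl hs
    · exact Or.inr ⟨h1.trans h, a, ih a ha⟩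

theorem t_CON (hSEQ : S_SEQ) (hFUS : S_FUS) (hDEL : S_DEL) (hSTEP : S_STEP) : S_CON := by
  intro X ι pred hpred κ hκ hcof T hT t ht hfull
  obtain ⟨c, hc⟩ := hSEQ κ hκ hcof
  have hD : ∀ (i : ι) (n : ℕ), ∃ S' R : Set X, S' ⊆ T i ∧ c n ≤ #S' ∧ R.Finite ∧
      (∀ x ∈ S', R ⊆ pred x) ∧
      ∀ x ∈ S', ∀ y ∈ S', x ≠ y → (insert x (pred x) ∩ insert y (pred y) : Set X) ⊆ R :=
    fun i n => hDEL pred hpred (c n) (hc.reg n) (hc.unc n) (T i) ((hc.lt n).le.trans (hT i))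
  choose S R h1 h2 h3 h4 h5 using hD
  have hdat : Dat pred c T S R := ⟨h1, h2, h3, h4, h5⟩
  have hst : ∀ (n : ℕ) (p : {p : Set X × Set ι // Adm pred R (c n) p.1 p.2}),
      ∃ q : {p : Set X × Set ι // Adm pred R (c (n + 1)) p.1 p.2},
        p.1.1 ⊆ q.1.1 ∧ q.1.2 ⊆ p.1.2 ∧ (∀ s ∈ Sub (c n) t, Full s p.1.2 → Full s q.1.2) ∧
        ∀ i ∈ p.1.2, Tr.leaf i ∈ Sub (c n) t → c (n + 1) ≤ #(q.1.1 ∩ T i : Set X) := by
    rintro n ⟨⟨Y, Z⟩, hp⟩
    obtain ⟨Y', Z', k1, k2, k3, k4, k5⟩ := hSTEP pred hpred κ c hc T S R hdat t ht n Y Z hp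
    exact ⟨⟨(Y', Z'), k1⟩, k2, k3, k4, k5⟩
  choose F hF using hst
  have hstart : Adm pred R (c 0) (∅ : Set X) (Set.univ : Set ι) := by
    refine ⟨fun x hx => absurd hx (Set.notMem_empty x), ?_, ?_⟩
    · rw [Cardinal.mk_eq_zero]
      exact zero_le
    · intro i _
      have h6 : {m | Disjoint (R i m) (∅ : Set X)} = Set.univ := by
        ext m
        simp
      rw [h6]
      exact Set.infinite_univ
  let p : (n : ℕ) → {p : Set X × Set ι // Adm pred R (c n) p.1 p.2} := fun n =>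
    Nat.rec (motive := fun n => {p : Set X × Set ι // Adm pred R (c n) p.1 p.2})
      ⟨(∅, Set.univ), hstart⟩ (fun n q => F n q) n
  have hp0 : (p 0).1.2 = Set.univ := rfl
  have hps : ∀ n, p (n + 1) = F n (p n) := fun n => rfl
  have hY : ∀ n, (p n).1.1 ⊆ (p (n + 1)).1.1 := fun n => by
    rw [hps]
    exact (hF n (p n)).1
  have hZ : ∀ n, (p (n + 1)).1.2 ⊆ (p n).1.2 := fun n => by
    rw [hps]
    exact (hF n (p n)).2.1
  have hS : ∀ n, ∀ s ∈ Sub (c n) t, Full s (p n).1.2 → Full s (p (n + 1)).1.2 := fun n => by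
    rw [hps]
    exact (hF n (p n)).2.2.1
  have hC : ∀ n, ∀ i ∈ (p n).1.2, Tr.leaf i ∈ Sub (c n) t →
      c (n + 1) ≤ #((p (n + 1)).1.1 ∩ T i : Set X) := fun n => by
    rw [hps]
    exact (hF n (p n)).2.2.2
  have hYm : Monotone fun n => (p n).1.1 := monotone_nat_of_le_succ hY
  have hZa : Antitone fun n => (p n).1.2 := antitone_nat_of_succ_le hZ
  refine ⟨⋃ n, (p n).1.1, {i | (∃ n, Tr.leaf i ∈ Sub (c n) t) ∧ ∀ n, i ∈ (p n).1.2}, ?_, ?_, ?_⟩
  · intro x hx y hy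
    obtain ⟨n, hn⟩ := Set.mem_iUnion.1 hx
    obtain ⟨m, hm⟩ := Set.mem_iUnion.1 hy
    exact (p (max n m)).2.anti x (hYm (le_max_left n m) hn) y (hYm (le_max_right n m) hm)
  · refine hFUS κ c hc t ht (fun n => (p n).1.2) hZa _ (fun i a b => ⟨a, b⟩) hS ?_
    show Full t (p 0).1.2
    rw [hp0]
    exact hfull
  · rintro i ⟨⟨n, hn⟩, hi⟩
    by_contra hlt
    rw [not_le] at hlt
    obtain ⟨k, hk⟩ := hc.cof _ hlt
    have h6 : Tr.leaf i ∈ Sub (c (max n k)) t :=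
      sub_mono_con (hc.mono.monotone (le_max_left n k)) t hn
    have h7 := hC (max n k) i (hi _) h6
    have h8 : #((p (max n k + 1)).1.1 ∩ T i : Set X) ≤ #((⋃ n, (p n).1.1) ∩ T i : Set X) :=
      Cardinal.mk_le_mk_of_subset (Set.inter_subset_inter_left _
        (Set.subset_iUnion (fun n => (p n).1.1) (max n k + 1)))
    have h9 : c (max n k + 1) ≤ c k := h7.trans (h8.trans hk)
    exact absurd h9 (not_le.2 (hc.mono (Nat.lt_succ_of_le (le_max_right n k))))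

end Pool.Agent.NH91.CW
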