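import Pool.Agent.NH91.CW.Stm

/-!
# CW-5: the `Δ`-system lemma for finite paths
-/

set_option autoImplicit false

namespace Pool.Agent.NH91.CW

open Set Cardinal Ordinal Pool.Agent.TH764.OG

namespace Del

/-- if every point lies in few of the finite sets `D x`, then there are many pairwise disjoint ones -/
theorem disj {X : Type} {ν : Cardinal.{0}} (hν : ν.IsRegular) (huc : ℵ₀ < ν) (D : X → Set X)
    (S : Set X) (hS : ν ≤ #S) (hfin : ∀ x ∈ S, (D x).Finite)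
    (hsmall : ∀ v, #{x : X | x ∈ S ∧ v ∈ D x} < ν) :
    ∃ S' : Set X, S' ⊆ S ∧ ν ≤ #S' ∧ S'.Pairwise fun x y => Disjoint (D x) (D y) := by
  obtain ⟨M, hM⟩ := zorn_subset {A : Set X | A ⊆ S ∧ A.Pairwise fun x y => Disjoint (D x) (D y)}
    (fun c hc hch => ⟨⋃₀ c, ⟨sUnion_subset fun A hA => (hc hA).1,
      (pairwise_sUnion hch.directedOn).2 fun A hA => (hc hA).2⟩, fun s hs => subset_sUnion_of_mem hs⟩)
  refine ⟨M, hM.1.1, ?_, hM.1.2⟩
  by_contra hlt
  rw [not_le] at hlt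
  have hW : #(⋃ x ∈ M, D x : Set X) < ν :=
    (card_biUnion_lt_iff_forall_of_isRegular hν hlt).2
      fun x hx => ((hfin x (hM.1.1 hx)).lt_aleph0).trans huc
  have hB : #(⋃ v ∈ (⋃ x ∈ M, D x : Set X), {x : X | x ∈ S ∧ v ∈ D x} : Set X) < ν :=
    (card_biUnion_lt_iff_forall_of_isRegular hν hW).2 fun v _ => hsmall v
  have hMB : #(M ∪ ⋃ v ∈ (⋃ x ∈ M, D x : Set X), {x : X | x ∈ S ∧ v ∈ D x} : Set X) < ν :=
    (mk_union_le _ _).trans_lt (add_lt_of_lt hν.aleph0_le hlt hB)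
  obtain ⟨x, hxS, hx⟩ : ∃ x ∈ S, x ∉ (M ∪ ⋃ v ∈ (⋃ x ∈ M, D x : Set X),
      {x : X | x ∈ S ∧ v ∈ D x} : Set X) := by
    by_contra hcon
    push Not at hcon
    exact absurd (mk_le_mk_of_subset hcon) (not_le.2 (hMB.trans_le hS))
  have hxM : x ∉ M := fun h => hx (Or.inl h)
  have hins : insert x M ∈ {A : Set X | A ⊆ S ∧ A.Pairwise fun x y => Disjoint (D x) (D y)} := by
    refine ⟨insert_subset hxS hM.1.1, ?_⟩
    have key : ∀ b ∈ M, Disjoint (D x) (D b) := by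
      intro b hb
      rw [Set.disjoint_left]
      intro z hz hz'
      apply hx
      right
      exact mem_iUnion₂.2 ⟨z, mem_iUnion₂.2 ⟨b, hb, hz'⟩, hxS, hz⟩
    exact pairwise_insert.2 ⟨hM.1.2, fun b hb _ => ⟨key b hb, (key b hb).symm⟩⟩
  exact hxM (hM.2 hins (subset_insert x M) (mem_insert x M))

/-- the `Δ`-system lemma -/
theorem delta {X : Type} {ν : Cardinal.{0}} (hν : ν.IsRegular) (huc : ℵ₀ < ν) (k : ℕ) :
    ∀ (D : X → Set X) (S : Set X), ν ≤ #S → (∀ x ∈ S, (D x).Finite ∧ (D x).ncard ≤ k) →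
    ∃ S' R : Set X, S' ⊆ S ∧ ν ≤ #S' ∧ R.Finite ∧ (∀ x ∈ S', R ⊆ D x) ∧
      ∀ x ∈ S', ∀ y ∈ S', x ≠ y → D x ∩ D y ⊆ R := by
  induction k with
  | zero =>
    intro D S hS hD
    refine ⟨S, ∅, subset_rfl, hS, finite_empty, fun x _ => empty_subset _, fun x hx y _ _ => ?_⟩
    have h1 : D x = ∅ := (ncard_eq_zero (hD x hx).1).1 (Nat.le_zero.1 (hD x hx).2)
    rw [h1, empty_inter]
  | succ k ih =>
    intro D S hS hD
    by_cases hv : ∃ v, ν ≤ #{x : X | x ∈ S ∧ v ∈ D x}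
    · obtain ⟨v, hv⟩ := hv
      obtain ⟨S', R, h1, h2, h3, h4, h5⟩ := ih (fun x => D x \ {v}) {x : X | x ∈ S ∧ v ∈ D x} hv
        (fun x hx => ⟨(hD x hx.1).1.subset sdiff_subset, by
          have h6 := ncard_sdiff_singleton_add_one hx.2 (hD x hx.1).1
          have h7 := (hD x hx.1).2
          omega⟩)
      refine ⟨S', insert v R, fun x hx => (h1 hx).1, h2, h3.insert v, fun x hx => ?_,
        fun x hx y hy hxy z hz => ?_⟩
      · exact insert_subset (h1 hx).2 ((h4 x hx).trans sdiff_subset)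
      · by_cases hzv : z = v
        · exact Or.inl hzv
        · exact Or.inr (h5 x hx y hy hxy ⟨⟨hz.1, hzv⟩, ⟨hz.2, hzv⟩⟩)
    · push Not at hv
      obtain ⟨S', h1, h2, h3⟩ := disj hν huc D S hS (fun x hx => (hD x hx).1) hv
      refine ⟨S', ∅, h1, h2, finite_empty, fun x _ => empty_subset _, fun x hx y hy hxy => ?_⟩
      exact (Set.disjoint_iff.1 (h3 hx hy hxy))

end Del

theorem t_DEL : S_DEL := by
  intro X pred hp ν hν huc S hS
  have hfin : ∀ x, (insert x (pred x) : Set X).Finite := fun x => (hp.fin x).insert x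
  obtain ⟨k, T, hT, hT1, hT2⟩ := infinite_pigeonhole_set
    (fun x : S => ULift.up.{0} (insert (x : X) (pred x) : Set X).ncard) ν hS hν.aleph0_le
    (by rw [hν.cof_ord]; simpa using huc)
  obtain ⟨S', R, h1, h2, h3, h4, h5⟩ := Del.delta hν huc k.down (fun x => insert x (pred x)) T hT1
    (fun x hx => ⟨hfin x, by rw [← hT2 hx]⟩)
  refine ⟨S' \ R, R, sdiff_subset.trans (h1.trans hT), ?_, h3, fun x hx z hz => ?_,
    fun x hx y hy hxy => h5 x hx.1 y hy.1 hxy⟩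
  · by_contra hlt
    rw [not_le] at hlt
    have h6 : #S' ≤ #(S' \ R : Set X) + #R := by
      refine (mk_le_mk_of_subset (subset_sdiff_union S' R)).trans (mk_union_le _ _)
    have h7 : #(S' \ R : Set X) + #R < ν :=
      add_lt_of_lt hν.aleph0_le hlt (h3.lt_aleph0.trans huc)
    exact absurd (h2.trans h6) (not_le.2 h7)
  · rcases h4 x hx.1 hz with h6 | h6
    · exact absurd hz (h6 ▸ hx.2)
    · exact h6

end Pool.Agent.NH91.CW
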