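import Pool.Agent.NH91.CW.Stm

/-!
# CW-2: the fusion lemma for trees (helper2)
-/

set_option autoImplicit false

namespace Pool.Agent.NH91.CW

open Set Cardinal Ordinal Pool.Agent.TH764.OG

namespace Fus

theorem self_mem {ι : Type} (c : Cardinal.{0}) (t : Tr ι) : t ∈ Sub c t := by
  cases t with
  | leaf i => exact rfl
  | node A f => exact Or.inl rfl

theorem sub_mono {ι : Type} {c c' : Cardinal.{0}} (h : c ≤ c') (t : Tr ι) : Sub c t ⊆ Sub c' t := by
  induction t with
  | leaf i => exact fun s hs => hs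
  | node A f ih =>
    rintro s (hs | ⟨hA, a, hs⟩)
    · exact Or.inl hs
    · exact Or.inr ⟨hA.trans h, a, ih a hs⟩

theorem main {ι : Type} {κ : Cardinal.{0}} {c : ℕ → Cardinal.{0}} (hc : Seq κ c) {Z : ℕ → Set ι}
    (hZ : Antitone Z) {W : Set ι} (t : Tr ι) : OK κ t → ∀ m : ℕ,
    (∀ n, m ≤ n → ∀ s ∈ Sub (c n) t, Full s (Z n) → Full s (Z (n + 1))) →
    (∀ i, (∃ n, Tr.leaf i ∈ Sub (c n) t) → (∀ n, i ∈ Z n) → i ∈ W) →
    Full t (Z m) → Full t W := by
  induction t with
  | leaf i =>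
    intro _ m h1 h2 h3
    have h4 : ∀ n, m ≤ n → i ∈ Z n := by
      intro n hn
      induction n, hn using Nat.le_induction with
      | base => exact h3
      | succ n hn ih => exact h1 n hn (.leaf i) (self_mem _ _) ih
    refine h2 i ⟨0, self_mem _ _⟩ fun n => ?_
    exact hZ (le_max_left n m) (h4 _ (le_max_right n m))
  | node A f ih =>
    intro hOK m h1 h2 h3
    obtain ⟨n₀, hn₀⟩ := hc.cof _ hOK.2.1
    have h4 : ∀ n, m ≤ n → Full (.node A f) (Z n) := by
      intro n hn
      induction n, hn using Nat.le_induction with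
      | base => exact h3
      | succ n hn ih => exact h1 n hn (.node A f) (self_mem _ _) ih
    have hle : ∀ n, max m n₀ ≤ n → #A ≤ c n := fun n hn =>
      hn₀.trans (hc.mono.monotone ((le_max_right m n₀).trans hn))
    have h5 : #A ≤ #{a : A // Full (f a) (Z (max m n₀))} := h4 _ (le_max_left m n₀)
    change #A ≤ #{a : A // Full (f a) W}
    refine h5.trans (Cardinal.mk_subtype_le_of_subset fun a ha => ?_)
    refine ih a (hOK.2.2 a) (max m n₀) (fun n hn s hs => ?_) (fun i hi => ?_) ha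
    · exact h1 n ((le_max_left m n₀).trans hn) s (Or.inr ⟨hle n hn, a, hs⟩)
    · obtain ⟨n, hn⟩ := hi
      refine h2 i ⟨max n (max m n₀), Or.inr ⟨hle _ (le_max_right _ _), a, ?_⟩⟩
      exact sub_mono (hc.mono.monotone (le_max_left _ _)) _ hn

end Fus

theorem t_FUS : S_FUS := by
  intro ι κ c hc t hOK Z hZ W h1 h2 h3
  exact Fus.main hc hZ t hOK 0 (fun n _ => h2 n) h1 h3

end Pool.Agent.NH91.CW
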