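import Pool.Agent.NH91.CW.Stm

/-!
# CW-6 (helper79): greedy choice
-/

set_option autoImplicit false

namespace Pool.Agent.NH91.CW

open Set Cardinal Ordinal Pool.Agent.TH764.OG

namespace Gre

/-- a union of fewer than `ν` finite sets -/
theorem union_lt {X I : Type} {ν : Cardinal.{0}} (h1 : ℵ₀ ≤ ν) (h2 : #I < ν) (F : I → Set X)
    (h3 : ∀ i, (F i).Finite) : #(⋃ i, F i : Set X) < ν := by
  rcases lt_or_ge #I ℵ₀ with h | h
  · have : Finite I := Cardinal.lt_aleph0_iff_finite.1 h
    exact (Set.Finite.lt_aleph0 (Set.finite_iUnion h3)).trans_le h1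
  · calc #(⋃ i, F i : Set X) ≤ Cardinal.sum fun i => #(F i) := Cardinal.mk_iUnion_le_sum_mk
      _ ≤ Cardinal.sum fun _ : I => ℵ₀ := Cardinal.sum_le_sum _ _ fun i => (h3 i).lt_aleph0.le
      _ = #I * ℵ₀ := Cardinal.sum_const' I ℵ₀
      _ = #I := Cardinal.mul_aleph0_eq h
      _ < ν := h2

end Gre

open Gre in
/-- CW-6 -/
theorem t_GRE : S_GRE := by
  classical
  intro X Q ν hν hQ Con hsym A hA hfin
  obtain ⟨e⟩ : Nonempty (Q ↪ ν.ord.ToType) := by
    rw [← Cardinal.le_def, Cardinal.mk_ord_toType]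
    exact hQ
  have wf : WellFounded (fun q' q : Q => e q' < e q) := InvImage.wf e wellFounded_lt
  have hI : ∀ q : Q, #{q' : Q // e q' < e q} < ν := by
    intro q
    have h1 : #{q' : Q // e q' < e q} ≤ #(Set.Iio (e q)) := by
      refine Cardinal.mk_le_of_injective (f := fun i => ⟨e i.1, i.2⟩) ?_
      intro i j hij
      exact Subtype.ext (e.injective (congrArg Subtype.val hij))
    exact h1.trans_lt (Cardinal.mk_Iio_toType_ord_lt (e q))
  have hne : ∀ q, ∃ x, x ∈ A q := by
    intro q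
    have h1 : #(A q) ≠ 0 := by
      intro h2
      have h3 := hA q
      rw [h2] at h3
      exact absurd (hν.trans h3) (not_le.2 Cardinal.aleph0_pos)
    obtain ⟨x⟩ := Cardinal.mk_ne_zero_iff.1 h1
    exact ⟨x.1, x.2⟩
  choose a0 ha0 using hne
  let F : (q : Q) → ((q' : Q) → e q' < e q → X) → X := fun q f =>
    if h : ∃ x, x ∈ A q ∧ ∀ (q' : Q) (hq : e q' < e q), ¬ Con x (f q' hq) then h.choose else a0 q
  let u : Q → X := wf.fix F
  have hu : ∀ q, u q = F q (fun q' _ => u q') := fun q => wf.fix_eq F q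
  have huA : ∀ q, u q ∈ A q := by
    intro q
    rw [hu q]
    show (if h : ∃ x, x ∈ A q ∧ ∀ (q' : Q) (_ : e q' < e q), ¬ Con x (u q') then h.choose
      else a0 q) ∈ A q
    split_ifs with h
    · exact h.choose_spec.1
    · exact ha0 q
  have huN : ∀ q q' : Q, e q' < e q → ¬ Con (u q) (u q') := by
    intro q
    have hex : ∃ x, x ∈ A q ∧ ∀ (q' : Q) (_ : e q' < e q), ¬ Con x (u q') := by
      by_contra hcon
      push Not at hcon
      have h1 : A q ⊆ ⋃ i : {q' : Q // e q' < e q}, {x | x ∈ A q ∧ Con x (u i.1)} := by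
        intro x hx
        obtain ⟨q', hq', hc⟩ := hcon x hx
        exact Set.mem_iUnion.2 ⟨⟨q', hq'⟩, hx, hc⟩
      have h2 := (Cardinal.mk_le_mk_of_subset h1).trans_lt
        (union_lt hν (hI q) _ fun i => hfin q i.1 (u i.1) (huA i.1))
      exact absurd (hA q) (not_le.2 h2)
    have h2 : u q = hex.choose := by
      rw [hu q]
      show (if h : ∃ x, x ∈ A q ∧ ∀ (q' : Q) (_ : e q' < e q), ¬ Con x (u q') then h.choose
        else a0 q) = _
      rw [dif_pos hex]
    intro q' hq'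
    rw [h2]
    exact hex.choose_spec.2 q' hq'
  refine ⟨u, huA, fun q q' hqq hc => ?_⟩
  rcases lt_trichotomy (e q) (e q') with h | h | h
  · exact huN q' q h (hsym _ _ hc)
  · exact hqq (e.injective h)
  · exact huN q q' h hc

end Pool.Agent.NH91.CW
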