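import Pool.Agent.NH91.CW.Stm

/-!
# CW-4: the full sets are the positive sets of an ideal
-/

set_option autoImplicit false

namespace Pool.Agent.NH91.CW

open Set Cardinal

namespace Idl

lemma mono {ι : Type} (t : Tr ι) : ∀ Z Z' : Set ι, Z ⊆ Z' → Full t Z → Full t Z' := by
  induction t with
  | leaf i => intro Z Z' h hf; exact h hf
  | node A f ih =>
    intro Z Z' h hf
    have hf1 : #A ≤ #{a : A // Full (f a) Z} := hf
    change #A ≤ #{a : A // Full (f a) Z'}
    refine hf1.trans (Cardinal.mk_le_of_injective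
      (f := fun x : {a : A // Full (f a) Z} =>
        (⟨x.1, ih x.1 Z Z' h x.2⟩ : {a : A // Full (f a) Z'})) ?_)
    intro x y hxy
    have h1 : x.1 = y.1 := congrArg (fun z : {a : A // Full (f a) Z'} => z.1) hxy
    exact Subtype.ext h1

lemma ideal {ι : Type} (κ : Cardinal.{0}) (t : Tr ι) : OK κ t →
    ∀ Z Z' : Set ι, Full t (Z ∪ Z') → Full t Z ∨ Full t Z' := by
  induction t with
  | leaf i => intro _ Z Z' h; exact h
  | node A f ih =>
    intro hok Z Z' h
    obtain ⟨hreg, _, ho⟩ := hok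
    have h0 : #A ≤ #{a : A // Full (f a) (Z ∪ Z')} := h
    by_contra hcon
    rw [not_or] at hcon
    have h1 : #{a : A // Full (f a) Z} < #A := not_le.mp hcon.1
    have h2 : #{a : A // Full (f a) Z'} < #A := not_le.mp hcon.2
    have h3 : #{a : A // Full (f a) (Z ∪ Z')} ≤
        #{a : A // Full (f a) Z} + #{a : A // Full (f a) Z'} := by
      have hs : {a : A | Full (f a) (Z ∪ Z')} ⊆ {a : A | Full (f a) Z} ∪ {a : A | Full (f a) Z'} :=
        fun a ha => ih a (ho a) Z Z' ha
      exact (Cardinal.mk_le_mk_of_subset hs).trans (Cardinal.mk_union_le _ _)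
    exact absurd (h0.trans h3) (not_le.mpr (Cardinal.add_lt_of_lt hreg.aleph0_le h1 h2))

end Idl

theorem t_IDL : S_IDL := fun κ t h => ⟨Idl.mono t, Idl.ideal κ t h⟩

end Pool.Agent.NH91.CW
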