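import Pool.Agent.NH91.CW.Stm

/-!
# CW-1: regular cardinals increasing to `κ`
-/

set_option autoImplicit false

namespace Pool.Agent.NH91.CW

open Set Cardinal Ordinal Pool.Agent.TH764.OG

namespace SEQ

/-- the recursion -/
noncomputable def cc (g : ℕ → Cardinal.{0}) : ℕ → Cardinal.{0}
  | 0 => Order.succ (max ℵ₀ (g 0))
  | n + 1 => Order.succ (max (cc g n) (g (n + 1)))

theorem cc_unc (g : ℕ → Cardinal.{0}) : ∀ n, ℵ₀ < cc g n
  | 0 => Order.lt_succ_of_le (le_max_left _ _)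
  | n + 1 => Order.lt_succ_of_le ((cc_unc g n).le.trans (le_max_left _ _))

theorem cc_reg (g : ℕ → Cardinal.{0}) : ∀ n, (cc g n).IsRegular
  | 0 => isRegular_succ (le_max_left _ _)
  | n + 1 => isRegular_succ ((cc_unc g n).le.trans (le_max_left _ _))

theorem cc_ge (g : ℕ → Cardinal.{0}) : ∀ n, g n < cc g n
  | 0 => Order.lt_succ_of_le (le_max_right _ _)
  | _ + 1 => Order.lt_succ_of_le (le_max_right _ _)

theorem cc_lt (g : ℕ → Cardinal.{0}) (κ : Cardinal.{0}) (hκ : ℵ₀ < κ)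
    (hs : ∀ ν < κ, Order.succ ν < κ) (hg : ∀ n, g n < κ) : ∀ n, cc g n < κ
  | 0 => hs _ (max_lt hκ (hg 0))
  | n + 1 => hs _ (max_lt (cc_lt g κ hκ hs hg n) (hg (n + 1)))

end SEQ

theorem t_SEQ : S_SEQ := by
  intro κ hκ hcof
  have hsing : κ.IsSingular := IsSingular.of_not_isRegular hκ.le (fun h => by
    rw [h.cof_ord] at hcof
    exact hκ.ne' hcof)
  have hlim := hsing.isSuccLimit
  have hsucc : ∀ ν < κ, Order.succ ν < κ := fun ν h => hlim.succ_lt h
  obtain ⟨s, hs, hsc⟩ := Order.exists_cof_eq (α := κ.ord.ToType)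
  rw [cof_toType, hcof] at hsc
  have hcount : s.Countable := by
    rw [← Cardinal.le_aleph0_iff_set_countable]
    exact hsc.le
  have hne : s.Nonempty := by
    rw [Set.nonempty_iff_ne_empty]
    rintro rfl
    rw [Cardinal.mk_eq_zero] at hsc
    exact Cardinal.aleph0_ne_zero hsc.symm
  obtain ⟨f, hf⟩ := hcount.exists_eq_range hne
  let g : ℕ → Cardinal.{0} := fun n => ((ToType.toOrd (f n) : Set.Iio κ.ord) : Ordinal).card
  have hg : ∀ n, g n < κ := fun n => Cardinal.lt_ord.mp (ToType.toOrd (f n)).2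
  refine ⟨SEQ.cc g, SEQ.cc_reg g, SEQ.cc_unc g, ?_, SEQ.cc_lt g κ hκ hsucc hg, ?_⟩
  · exact strictMono_nat_of_lt_succ fun n => Order.lt_succ_of_le (le_max_left _ _)
  · intro ν hν
    have h1 : ν.ord < κ.ord := Cardinal.ord_lt_ord.mpr hν
    obtain ⟨a, ha, hxa⟩ := hs (ToType.mk ⟨ν.ord, h1⟩)
    rw [hf] at ha
    obtain ⟨n, rfl⟩ := ha
    refine ⟨n, le_trans ?_ (SEQ.cc_ge g n).le⟩
    have h2 : (⟨ν.ord, h1⟩ : Set.Iio κ.ord) ≤ ToType.toOrd (f n) := by
      have := (ToType.mk.symm.le_iff_le).mpr hxa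
      rwa [OrderIso.symm_apply_apply] at this
    exact Cardinal.ord_le.mp h2

end Pool.Agent.NH91.CW
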