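import Pool.Agent.NH91.CW.Stm

/-!
# The next state
-/

set_option autoImplicit false

namespace Pool.Agent.NH91.CW

open Set Cardinal Ordinal Pool.Agent.TH764.OG

namespace STEP

theorem ok_sub {ι : Type} {κ c : Cardinal.{0}} (t : Tr ι) (ht : OK κ t) : ∀ s ∈ Sub c t, OK κ s := by
  induction t with
  | leaf i =>
    intro s hs
    have h : s = Tr.leaf i := hs
    rw [h]
    exact ht
  | node A f ih =>
    intro s hs
    have h : s = Tr.node A f ∨ (#A ≤ c ∧ ∃ a, s ∈ Sub c (f a)) := hs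
    rcases h with h | ⟨-, a, h⟩
    · rw [h]; exact ht
    · exact ih a (ht.2.2 a) s h

end STEP

open STEP in
theorem t_STEP (hSUB : S_SUB) (hIDL : S_IDL) (hANT : S_ANT) : S_STEP := by
  intro X ι pred hT κ c hc T S R hD t ht n Y Z hA
  classical
  obtain ⟨J, g, hJ, hg⟩ := hSUB (c n) (hc.unc n).le t
  let B : Type := {i : ι // i ∈ Z ∧ Tr.leaf i ∈ Sub (c n) t}
  have hB : #B ≤ c n := by
    have h1 : ∀ b : B, ∃ j, g j = Tr.leaf b.1 := fun b => hg b.2.2
    choose φ hφ using h1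
    refine (Cardinal.mk_le_of_injective (f := φ) ?_).trans hJ
    intro a b hab
    have h2 : (Tr.leaf a.1 : Tr ι) = Tr.leaf b.1 := by rw [← hφ a, ← hφ b, hab]
    exact Subtype.ext (Tr.leaf.inj h2)
  have hm : ∀ b : B, ∃ m, n + 1 ≤ m ∧ Disjoint (R b.1 m) Y := by
    intro b
    obtain ⟨m, hm1, hm2⟩ := (hA.inf b.1 b.2.1).exists_gt n
    exact ⟨m, hm2, hm1⟩
  choose m hm1 hm2 using hm
  obtain ⟨U, hU1, hU2, hU3, hU4⟩ := hANT pred hT (c (n + 1)) (c n) (hc.reg _) (hc.unc n).le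
    (hc.mono (Nat.lt_succ_self n)) hB Y hA.card hA.anti (fun b : B => S b.1 (m b))
    (fun b => R b.1 (m b)) (fun b => (hc.mono.monotone (hm1 b)).trans (hD.card _ _))
    (fun b => hD.fin _ _) hm2 (fun b => hD.ker _ _) (fun b => hD.del _ _)
  set Cap : (c (n + 1)).ord.ToType → Set ι :=
    fun a => {i | i ∈ Z ∧ ¬ {m | Disjoint (R i m) (Y ∪ U a)}.Infinite} with hCap
  have hdis : ∀ a a', a ≠ a' → ∀ i, i ∈ Cap a → i ∈ Cap a' → False := by
    intro a a' haa i hi hi'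
    have f1 : {m | Disjoint (R i m) (Y ∪ U a)}.Finite := Set.not_infinite.1 hi.2
    have f2 : {m | Disjoint (R i m) (Y ∪ U a')}.Finite := Set.not_infinite.1 hi'.2
    obtain ⟨k, hk1, hk2⟩ := ((hA.inf i hi.1).sdiff (f1.union f2)).nonempty
    have hk1' : Disjoint (R i k) Y := hk1
    have hk3 : ¬ Disjoint (R i k) (Y ∪ U a) := fun h => hk2 (Or.inl h)
    have hk4 : ¬ Disjoint (R i k) (Y ∪ U a') := fun h => hk2 (Or.inr h)
    have key : ∀ W : Set X, ¬ Disjoint (R i k) (Y ∪ W) → ∃ u ∈ R i k, u ∈ W := by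
      intro W hW
      rw [Set.not_disjoint_iff] at hW
      obtain ⟨u, hu1, hu2⟩ := hW
      rcases hu2 with hu2 | hu2
      · exact absurd hu2 (Set.disjoint_left.1 hk1' hu1)
      · exact ⟨u, hu1, hu2⟩
    obtain ⟨u, hu1, hu2⟩ := key _ hk3
    obtain ⟨v, hv1, hv2⟩ := key _ hk4
    have huv : u ≠ v := by
      rintro rfl
      exact Set.disjoint_left.1 (hU3 a a' haa) hu2 hv2
    have hne : #(S i k) ≠ 0 := by
      intro h0
      have := hD.card i k
      rw [h0] at this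
      exact absurd (lt_of_lt_of_le (hc.unc k) this) (not_lt.2 zero_le)
    obtain ⟨⟨x, hx⟩⟩ := Cardinal.mk_ne_zero_iff.1 hne
    have hux := hD.ker i k x hx hu1
    have hvx := hD.ker i k x hx hv1
    have hu' : u ∈ Y ∪ ⋃ a, U a := Or.inr (Set.mem_iUnion.2 ⟨a, hu2⟩)
    have hv' : v ∈ Y ∪ ⋃ a, U a := Or.inr (Set.mem_iUnion.2 ⟨a', hv2⟩)
    rcases hT.chain x u v hux hvx with h | h | h
    · exact huv h
    · exact hU4 u hu' v hv' h
    · exact hU4 v hv' u hu' h
  -- at most one bad index for every subtree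
  have hbad : ∀ s ∈ Sub (c n) t, Full s Z → ∀ a a', ¬ Full s (Z \ Cap a) → ¬ Full s (Z \ Cap a') →
      a = a' := by
    intro s hs hF a a' h1 h2
    by_contra haa
    have hok := ok_sub t ht s hs
    have h3 : Z ⊆ (Z \ Cap a) ∪ (Z \ Cap a') := by
      intro i hi
      by_cases h : i ∈ Cap a
      · exact Or.inr ⟨hi, fun h' => hdis a a' haa i h h'⟩
      · exact Or.inl ⟨hi, h⟩
    rcases (hIDL κ s hok).2 _ _ ((hIDL κ s hok).1 _ _ h3 hF) with h | h
    · exact h1 h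
    · exact h2 h
  obtain ⟨a₀, ha₀⟩ : ∃ a₀, ∀ s ∈ Sub (c n) t, Full s Z → Full s (Z \ Cap a₀) := by
    by_contra hcon
    push Not at hcon
    choose s hs1 hs2 hs3 using hcon
    have h1 : ∀ a, ∃ j, g j = s a := fun a => hg (hs1 a)
    choose φ hφ using h1
    have h2 : Function.Injective φ := by
      intro a a' haa
      have h3 : s a = s a' := by rw [← hφ a, ← hφ a', haa]
      refine hbad (s a) (hs1 a) (hs2 a) a a' (hs3 a) ?_
      rw [h3]
      exact hs3 a'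
    have h4 := (Cardinal.mk_le_of_injective h2).trans hJ
    rw [Cardinal.mk_ord_toType] at h4
    exact absurd (hc.mono (Nat.lt_succ_self n)) (not_lt.2 h4)
  refine ⟨Y ∪ U a₀, Z \ Cap a₀, ⟨?_, ?_, ?_⟩, Set.subset_union_left, Set.sdiff_subset, ha₀, ?_⟩
  · have hsub : Y ∪ U a₀ ⊆ Y ∪ ⋃ a, U a := Set.union_subset_union_right _ (Set.subset_iUnion U a₀)
    intro x hx y hy
    exact hU4 x (hsub hx) y (hsub hy)
  · refine (Cardinal.mk_union_le _ _).trans ?_
    exact Cardinal.add_le_of_le (hc.unc _).le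
      (hA.card.trans (hc.mono (Nat.lt_succ_self n)).le) (hU1 a₀)
  · intro i hi
    by_contra h
    exact hi.2 ⟨hi.1, h⟩
  · intro i hi hl
    refine (hU2 a₀ ⟨i, hi, hl⟩).trans (Cardinal.mk_le_mk_of_subset ?_)
    intro x hx
    exact ⟨Or.inr hx.1, hD.sub _ _ hx.2⟩

end Pool.Agent.NH91.CW
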