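import Pool.Agent.NH91.CW.Stm

/-!
# At most `c` subtrees
-/

set_option autoImplicit false

namespace Pool.Agent.NH91.CW

open Set Cardinal

theorem t_SUB : S_SUB := by
  intro ι c hc t
  have h1 : (1 : Cardinal.{0}) ≤ c := one_le_aleph0.trans hc
  induction t with
  | leaf i =>
    refine ⟨Unit, fun _ => Tr.leaf i, ?_, ?_⟩
    · rw [mk_fintype, Fintype.card_unit, Nat.cast_one]
      exact h1
    · intro s hs
      have hs' : s = Tr.leaf i := hs
      exact ⟨(), hs'.symm⟩
  | node A f ih =>
    by_cases hA : #A ≤ c
    · choose J g hJ hg using ih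
      refine ⟨Option (Σ a, J a), fun o => o.elim (Tr.node A f) fun p => g p.1 p.2, ?_, ?_⟩
      · rw [mk_option, mk_sigma]
        have h2 : Cardinal.sum (fun a => #(J a)) ≤ c := by
          calc Cardinal.sum (fun a => #(J a)) ≤ Cardinal.sum (fun _ : A => c) :=
                Cardinal.sum_le_sum _ _ hJ
            _ = #A * c := by rw [Cardinal.sum_const']
            _ ≤ c * c := mul_le_mul' hA le_rfl
            _ = c := mul_eq_self hc
        calc Cardinal.sum (fun a => #(J a)) + 1 ≤ c + c := add_le_add h2 h1
          _ = c := add_eq_self hc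
      · intro s hs
        rcases hs with hs | ⟨-, a, hs⟩
        · have hs' : s = Tr.node A f := hs
          exact ⟨none, hs'.symm⟩
        · obtain ⟨j, hj⟩ := hg a hs
          exact ⟨some ⟨a, j⟩, hj⟩
    · refine ⟨Unit, fun _ => Tr.node A f, ?_, ?_⟩
      · rw [mk_fintype, Fintype.card_unit, Nat.cast_one]
        exact h1
      · intro s hs
        rcases hs with hs | ⟨h, -⟩
        · have hs' : s = Tr.node A f := hs
          exact ⟨(), hs'.symm⟩
        · exact absurd h hA

end Pool.Agent.NH91.CW
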