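import Pool.Agent.NH91.CW.Stm

/-!
# The tree of the ordinal `ω ^ δ` (CW-10)
-/

set_option autoImplicit false

namespace Pool.Agent.NH91.CW

open Set Cardinal Ordinal Pool.Agent.TH764.OG

namespace Tre

lemma omega_le_type {J : Set ℕ} (h : ℵ₀ ≤ #J) : ω ≤ typeLT J :=
  calc ω = Cardinal.ord ℵ₀ := Cardinal.ord_aleph0.symm
    _ ≤ Cardinal.ord #J := Cardinal.ord_le_ord.2 h
    _ ≤ typeLT J := Cardinal.ord_le_type _

/-- a large subset of a cofinal set of minimal type is cofinal -/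
lemma exists_cofinal (δ : Ordinal.{0}) :
    ∃ (A : Type) (g : A → Ordinal.{0}), #A = δ.cof ∧ (∀ a, g a < δ) ∧
      ∀ B : Set A, #A ≤ #B → ∀ c < δ, ∃ b ∈ B, c ≤ g b := by
  obtain ⟨s, hs, hs'⟩ := exists_ord_cof_eq δ.ToType
  rw [cof_toType] at hs'
  have hcard : #s = δ.cof := by
    have h := congrArg Ordinal.card hs'
    rwa [card_type, card_ord] at h
  refine ⟨s, fun a => (ToType.toOrd a.1 : Ordinal.{0}), hcard, fun a => (ToType.toOrd a.1).2, ?_⟩
  intro B hB c hc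
  by_contra hcon
  push Not at hcon
  obtain ⟨a, ha, hca⟩ := hs (ToType.mk (⟨c, hc⟩ : Set.Iio δ))
  have h3 : c ≤ (ToType.toOrd a : Ordinal.{0}) := by
    have h2 : ToType.toOrd (ToType.mk (⟨c, hc⟩ : Set.Iio δ)) ≤ ToType.toOrd a := by
      rwa [OrderIso.le_iff_le]
    have h3 : ToType.toOrd (ToType.mk (⟨c, hc⟩ : Set.Iio δ)) = ⟨c, hc⟩ := by
      simp
    rw [h3] at h2
    exact h2
  have hsub : B ⊆ Set.Iio (⟨a, ha⟩ : s) := by
    intro b hb
    have h1 : (ToType.toOrd b.1 : Ordinal.{0}) < (ToType.toOrd a : Ordinal.{0}) :=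
      (hcon b hb).trans_le h3
    have h2 : ToType.toOrd b.1 < ToType.toOrd a := h1
    exact (OrderIso.lt_iff_lt _).1 h2
  have h5 := Cardinal.mk_Iio_lt (⟨a, ha⟩ : s) (by rw [hcard, hs'])
  exact absurd (hB.trans (Cardinal.mk_le_mk_of_subset hsub)) (not_le.2 h5)

lemma full_univ {X A : Type} (t : A → Tr X) (h : ∀ a, Full (t a) Set.univ) :
    Full (.node A t) Set.univ := by
  change #A ≤ #{a : A // Full (t a) Set.univ}
  exact Cardinal.mk_le_of_injective (f := fun n => ⟨n, h n⟩) (fun a b h => by simpa using h)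

theorem main {X : Type} [LinearOrder X] [WellFoundedLT X] (κ : Cardinal.{0}) (hκ : ℵ₀ < κ)
    (hcof : κ.ord.cof = ℵ₀) (δ : Ordinal.{0}) : (ω ^ δ : Ordinal.{0}).card ≤ κ →
    ∀ (ψ : Ordinal.{0} → X) (_ : StrictMonoOn ψ (Set.Iio (ω ^ δ))),
    ∃ t : Tr X, OK κ t ∧ Full t Set.univ ∧
      ∀ Z : Set X, Full t Z → ω ^ δ ≤ typeLT (Z ∩ ψ '' Set.Iio (ω ^ δ) : Set X) := by
  have hω : (0 : Ordinal.{0}) < ω := Ordinal.omega0_pos
  induction δ using WellFoundedLT.induction with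
  | ind δ ih =>
  intro hδ ψ hψ
  rcases Ordinal.zero_or_succ_or_isSuccLimit δ with rfl | ⟨d, hd⟩ | hlim
  · refine ⟨.leaf (ψ 0), trivial, Set.mem_univ _, fun Z hZ => ?_⟩
    rw [Ordinal.opow_zero, Order.one_le_iff_ne_zero, Ordinal.type_ne_zero_iff_nonempty]
    exact ⟨⟨ψ 0, hZ, 0, by simp, rfl⟩⟩
  · have hd' : δ = d + 1 := by rw [← hd]; exact (Order.succ_eq_add_one d)
    subst hd'
    have hlt : d < d + 1 := Order.lt_add_one_iff.2 le_rfl
    have hpow : ω ^ (d + 1) = ω ^ d * ω := by rw [Ordinal.opow_add, Ordinal.opow_one]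
    have hin : ∀ n : ℕ, ∀ ξ < ω ^ d, ω ^ d * (n : Ordinal.{0}) + ξ < ω ^ (d + 1) :=
      fun n ξ hξ => by
        rw [hpow]
        calc ω ^ d * n + ξ < ω ^ d * n + ω ^ d := (add_lt_add_iff_left _).2 hξ
          _ = ω ^ d * ((n : Ordinal.{0}) + 1) := by rw [mul_add_one]
          _ ≤ ω ^ d * ω := mul_le_mul_right (Order.add_one_le_of_lt (Ordinal.natCast_lt_omega0 n)) _
    have hblk : ∀ m n : ℕ, m < n → ∀ ξ < ω ^ d, ∀ ζ, ω ^ d * m + ξ < ω ^ d * n + ζ := by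
      intro m n hmn ξ hξ ζ
      calc ω ^ d * m + ξ < ω ^ d * m + ω ^ d := (add_lt_add_iff_left _).2 hξ
        _ = ω ^ d * ((m : Ordinal.{0}) + 1) := by rw [mul_add_one]
        _ ≤ ω ^ d * n := mul_le_mul_right (by exact_mod_cast hmn) _
        _ ≤ _ := le_self_add
    have hcard : (ω ^ d : Ordinal.{0}).card ≤ κ :=
      (Ordinal.card_le_card (Ordinal.opow_le_opow_right hω hlt.le)).trans hδ
    have hmono : ∀ n : ℕ, StrictMonoOn (fun ξ => ψ (ω ^ d * (n : Ordinal.{0}) + ξ))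
        (Set.Iio (ω ^ d)) := by
      intro n a ha b hb hab
      exact hψ (hin n a ha) (hin n b hb) ((add_lt_add_iff_left _).2 hab)
    choose t ht1 ht2 ht3 using fun n : ℕ => ih d hlt hcard _ (hmono n)
    refine ⟨.node ℕ t, ⟨?_, ?_, ht1⟩, full_univ t ht2, ?_⟩
    · rw [Cardinal.mk_nat]
      exact Cardinal.isRegular_aleph0
    · rw [Cardinal.mk_nat]
      exact hκ
    · intro Z hZ
      change #ℕ ≤ #{a : ℕ // Full (t a) Z} at hZ
      let J : Set ℕ := {n | Full (t n) Z}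
      have hJ : ω ≤ typeLT J := omega_le_type (by
        rw [Cardinal.mk_nat] at hZ
        exact hZ)
      rw [hpow]
      refine (mul_le_mul_right hJ _).trans ?_
      rw [← hpow]
      refine type_mul_le (ι := J) (fun n => (Z ∩ (fun ξ => ψ (ω ^ d * ((n : ℕ) : Ordinal.{0}) + ξ)) ''
        Set.Iio (ω ^ d) : Set X)) _ ?_ ?_ _ (fun n => ht3 n Z n.2)
      · intro i j hij a ha b hb
        obtain ⟨_, ξ, hξ, rfl⟩ := ha
        obtain ⟨_, ζ, hζ, rfl⟩ := hb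
        exact hψ (hin _ _ hξ) (hin _ _ hζ) (hblk _ _ hij ξ hξ ζ)
      · rintro n x ⟨hx, ξ, hξ, rfl⟩
        exact ⟨hx, _, hin _ _ hξ, rfl⟩
  · obtain ⟨A, g, hA, hg, hB⟩ := exists_cofinal δ
    have hle : δ ≤ ω ^ δ := Ordinal.right_le_opow δ Ordinal.one_lt_omega0
    have hcard : ∀ a, (ω ^ g a : Ordinal.{0}).card ≤ κ := fun a =>
      (Ordinal.card_le_card (Ordinal.opow_le_opow_right hω (hg a).le)).trans hδ
    have hreg : δ.cof.IsRegular := Cardinal.isRegular_cof hlim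
    have hlt : δ.cof < κ := by
      refine lt_of_le_of_ne ((Ordinal.cof_le_card δ).trans
        ((Ordinal.card_le_card hle).trans hδ)) ?_
      intro h
      rw [h] at hreg
      have h2 := hreg.cof_ord
      rw [hcof] at h2
      exact hκ.ne h2
    have hsub : ∀ a, Set.Iio (ω ^ g a) ⊆ Set.Iio (ω ^ δ) := fun a =>
      Set.Iio_subset_Iio (Ordinal.opow_le_opow_right hω (hg a).le)
    choose t ht1 ht2 ht3 using fun a => ih (g a) (hg a) (hcard a) ψ (hψ.mono (hsub a))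
    refine ⟨.node A t, ⟨by rw [hA]; exact hreg, by rw [hA]; exact hlt, ht1⟩, full_univ t ht2, ?_⟩
    intro Z hZ
    refine le_of_forall_lt (fun δ' hδ' => ?_)
    obtain ⟨c, hc, hδc⟩ := (Ordinal.lt_opow_of_isSuccLimit hω.ne' hlim).1 hδ'
    obtain ⟨b, hb, hcb⟩ := hB {a | Full (t a) Z} hZ c hc
    exact lt_of_lt_of_le (hδc.trans_le (Ordinal.opow_le_opow_right hω hcb))
      ((ht3 b Z hb).trans (TH764.OG.type_mono (Set.inter_subset_inter_right _ (Set.image_mono (hsub b)))))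

end Tre

theorem t_TRE : S_TRE := by
  intro X _ _ κ hκ hcof δ hδ ψ hψ
  exact Tre.main κ hκ hcof δ hδ ψ hψ

end Pool.Agent.NH91.CW
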